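import Pool.Agent.X219.NO.Defs

open Filter Encodable

namespace Pool.Agent.X219.NO

/-- the item `a` is consistent with the guess `w e` -/
def ok (w : ℕ → ℕ → Bool) (e : ℕ) (a : Item) : Bool :=
  a.elim true fun q => w e q.1 == q.2

/-- the item `a` is a positive datum in `w e` and not in `w e1` -/
def gd (w : ℕ → ℕ → Bool) (e e1 : ℕ) (a : Item) : Bool :=
  a.elim false fun q => q.2 && (w e q.1 && !w e1 q.1)

/-- the number `e` is acceptable on `σ` -/
def Cond (w : ℕ → ℕ → Bool) (σ : List Item) (e : ℕ) : Prop :=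
  (∀ a ∈ σ, ok w e a = true) ∧
    ∀ e1 < e, (∃ y < σ.length, w e y = true ∧ w e1 y = false) → ∃ a ∈ σ, gd w e e1 a = true

open Classical in
/-- the least acceptable number -/
noncomputable def hh (w : ℕ → ℕ → Bool) (σ : List Item) : ℕ :=
  (List.range (σ.length + 1)).findIdx fun e => decide (Cond w σ e)

theorem hh_eq {w : ℕ → ℕ → Bool} {σ : List Item} {e : ℕ} (he : e ≤ σ.length) (h1 : Cond w σ e)
    (h2 : ∀ e' < e, ¬ Cond w σ e') : hh w σ = e := by
  unfold hh
  rw [List.findIdx_eq (by simpa using Nat.lt_succ_of_le he)]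
  constructor
  · simpa using h1
  · intro j hj
    simpa using h2 j hj

/-- the numbers that matter -/
def use (σ : List Item) : Finset ℕ :=
  Finset.range (σ.length + 1) ∪ (σ.map fun a => a.elim 0 Prod.fst).toFinset

theorem mem_use_lt {σ : List Item} {y : ℕ} (h : y < σ.length) : y ∈ use σ := by
  simp [use]; left; omega

theorem mem_use_item {σ : List Item} {q : ℕ × Bool} (h : some q ∈ σ) : q.1 ∈ use σ := by
  simp only [use, Finset.mem_union, List.mem_toFinset, List.mem_map]
  right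
  exact ⟨some q, h, rfl⟩

theorem cond_congr {w w' : ℕ → ℕ → Bool} {σ : List Item}
    (h : ∀ e ∈ Finset.range (σ.length + 1), ∀ y ∈ use σ, w e y = w' e y) {e : ℕ}
    (he : e ≤ σ.length) (hc : Cond w σ e) : Cond w' σ e := by
  have hr : ∀ e1 ≤ e, e1 ∈ Finset.range (σ.length + 1) := fun e1 h1 =>
    Finset.mem_range.2 (by omega)
  refine ⟨fun a ha => ?_, fun e1 he1 => ?_⟩
  · have h1 := hc.1 a ha
    cases a with
    | none => rfl
    | some q =>
      have h2 := h e (hr e le_rfl) q.1 (mem_use_item ha)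
      simp only [ok, Option.elim_some] at h1 ⊢
      rw [← h2]
      exact h1
  · rintro ⟨y, hy, hy1, hy2⟩
    have hu := mem_use_lt hy
    obtain ⟨a, ha, hg⟩ := hc.2 e1 he1 ⟨y, hy, by rw [h e (hr e le_rfl) y hu]; exact hy1,
      by rw [h e1 (hr e1 he1.le) y hu]; exact hy2⟩
    refine ⟨a, ha, ?_⟩
    cases a with
    | none => simp [gd] at hg
    | some q =>
      simp only [gd, Option.elim_some] at hg ⊢
      rw [← h e (hr e le_rfl) q.1 (mem_use_item ha), ← h e1 (hr e1 he1.le) q.1 (mem_use_item ha)]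
      exact hg

theorem hh_congr {w w' : ℕ → ℕ → Bool} {σ : List Item}
    (h : ∀ e ∈ Finset.range (σ.length + 1), ∀ y ∈ use σ, w e y = w' e y) : hh w σ = hh w' σ := by
  classical
  unfold hh
  have h' : ∀ e ∈ Finset.range (σ.length + 1), ∀ y ∈ use σ, w' e y = w e y :=
    fun e he y hy => (h e he y hy).symm
  have key : ∀ e ∈ List.range (σ.length + 1), decide (Cond w σ e) = decide (Cond w' σ e) := by
    intro e he
    have he' : e ≤ σ.length := Nat.lt_succ_iff.1 (List.mem_range.1 he)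
    exact decide_eq_decide.2 ⟨cond_congr h he', cond_congr h' he'⟩
  generalize List.range (σ.length + 1) = l at key
  induction l with
  | nil => rfl
  | cons a l ih =>
    rw [List.findIdx_cons, List.findIdx_cons, key a (by simp),
      ih fun e he => key e (List.mem_cons_of_mem _ he)]

/-- The combinatorial part: one negative datum is enough. -/
theorem one_datum (V : ℕ → Set ℕ) (e₀ : ℕ) :
    ∃ S : Set ℕ, S ⊆ (V e₀)ᶜ ∧ S.Finite ∧ S.ncard ≤ 1 ∧
      ∀ e < e₀, V e₀ ⊂ V e → (∀ e1 < e, ¬ V e ⊆ V e1 → (V e₀ ∩ (V e \ V e1)).Nonempty) →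
        (S ∩ V e).Nonempty := by
  classical
  set B : Finset ℕ := (Finset.range e₀).filter fun e => V e₀ ⊂ V e ∧
    ∀ e1 < e, ¬ V e ⊆ V e1 → (V e₀ ∩ (V e \ V e1)).Nonempty with hB
  by_cases hne : B.Nonempty
  · have hk := B.max'_mem hne
    set k := B.max' hne with hkdef
    have hk2 := (Finset.mem_filter.1 hk).2
    obtain ⟨x, hx1, hx2⟩ := Set.exists_of_ssubset hk2.1
    refine ⟨{x}, ?_, Set.finite_singleton x, by simp, ?_⟩
    · intro y hy
      rw [Set.mem_singleton_iff.1 hy]
      exact hx2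
    · intro e he h1 h2
      have heB : e ∈ B := Finset.mem_filter.2 ⟨Finset.mem_range.2 he, h1, h2⟩
      refine ⟨x, rfl, ?_⟩
      rcases lt_or_eq_of_le (B.le_max' e heB) with hlt | heq
      · by_contra hx
        have hnot : ¬ V k ⊆ V e := fun h => hx (h hx1)
        obtain ⟨z, hz1, hz2, hz3⟩ := hk2.2 e hlt hnot
        exact hz3 (h1.subset hz1)
      · rw [heq]
        exact hx1
  · refine ⟨∅, Set.empty_subset _, Set.finite_empty, by simp, ?_⟩
    intro e he h1 h2
    exact absurd ⟨e, Finset.mem_filter.2 ⟨Finset.mem_range.2 he, h1, h2⟩⟩ hne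

theorem mem_initial {I : ℕ → Item} {n : ℕ} {a : Item} : a ∈ initial I n ↔ ∃ m < n, I m = a := by
  simp [initial]

theorem length_initial (I : ℕ → Item) (n : ℕ) : (initial I n).length = n := by
  simp [initial]

/-- The choice converges to the least index. -/
theorem hh_limit (w : ℕ → ℕ → Bool) (V : ℕ → Set ℕ) (hw : ∀ e y, w e y = true ↔ y ∈ V e) (e₀ : ℕ)
    (hmin : ∀ e < e₀, V e ≠ V e₀) :
    ∃ S : Set ℕ, S ⊆ (V e₀)ᶜ ∧ S.Finite ∧ S.ncard ≤ 1 ∧
      ∀ I : ℕ → Item, PosInfo I = V e₀ → S ⊆ NegInfo I → NegInfo I ⊆ (V e₀)ᶜ →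
        ∀ᶠ n in atTop, hh w (initial I n) = e₀ := by
  have hw' : ∀ e y, w e y = false ↔ y ∉ V e := fun e y => by
    rw [← hw, Bool.not_eq_true]
  obtain ⟨S, hS1, hS2, hS3, hS4⟩ := one_datum V e₀
  refine ⟨S, hS1, hS2, hS3, ?_⟩
  intro I hpos hSneg hneg
  -- smaller numbers are rejected
  have hrej : ∀ e ∈ Finset.range e₀, ∀ᶠ n in atTop, ¬ Cond w (initial I n) e := by
    intro e he
    have he' := Finset.mem_range.1 he
    by_cases hsub : V e₀ ⊆ V e
    · have hss : V e₀ ⊂ V e := ssubset_of_subset_of_ne hsub (hmin e he').symm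
      by_cases hbad : ∀ e1 < e, ¬ V e ⊆ V e1 → (V e₀ ∩ (V e \ V e1)).Nonempty
      · obtain ⟨x, hxS, hxV⟩ := hS4 e he' hss hbad
        obtain ⟨m, hm⟩ := hSneg hxS
        filter_upwards [eventually_gt_atTop m] with n hn hc
        have h1 := hc.1 (some (x, false)) (mem_initial.2 ⟨m, hn, hm⟩)
        simp only [ok, Option.elim_some, beq_iff_eq] at h1
        exact (hw' e x).1 h1 hxV
      · push Not at hbad
        obtain ⟨e1, he1, hnsub, hemp⟩ := hbad
        obtain ⟨y, hy1, hy2⟩ := Set.not_subset.1 hnsub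
        filter_upwards [eventually_gt_atTop y] with n hn hc
        obtain ⟨a, ha, hg⟩ := hc.2 e1 he1 ⟨y, by rw [length_initial]; exact hn,
          (hw e y).2 hy1, (hw' e1 y).2 hy2⟩
        cases a with
        | none => simp [gd] at hg
        | some q =>
          obtain ⟨z, b⟩ := q
          simp only [gd, Option.elim_some, Bool.and_eq_true, Bool.not_eq_eq_eq_not,
            Bool.not_true] at hg
          obtain ⟨hb, hz1, hz2⟩ := hg
          subst hb
          obtain ⟨m, -, hm⟩ := mem_initial.1 ha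
          have hzL : z ∈ V e₀ := by rw [← hpos]; exact ⟨m, hm⟩
          have : z ∈ V e₀ ∩ (V e \ V e1) := ⟨hzL, (hw e z).1 hz1, (hw' e1 z).1 hz2⟩
          rw [hemp] at this
          exact this
    · obtain ⟨y, hy1, hy2⟩ := Set.not_subset.1 hsub
      rw [← hpos] at hy1
      obtain ⟨m, hm⟩ := hy1
      filter_upwards [eventually_gt_atTop m] with n hn hc
      have h1 := hc.1 (some (y, true)) (mem_initial.2 ⟨m, hn, hm⟩)
      simp only [ok, Option.elim_some, beq_iff_eq] at h1
      exact hy2 ((hw e y).1 h1)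
  -- the least index is accepted
  have hacc1 : ∀ n, ∀ a ∈ initial I n, ok w e₀ a = true := by
    intro n a ha
    obtain ⟨m, -, hm⟩ := mem_initial.1 ha
    cases a with
    | none => rfl
    | some q =>
      obtain ⟨z, b⟩ := q
      simp only [ok, Option.elim_some, beq_iff_eq]
      cases b with
      | true => rw [hw, ← hpos]; exact ⟨m, hm⟩
      | false => rw [hw']; exact hneg ⟨m, hm⟩
  have hacc2 : ∀ e1 ∈ Finset.range e₀, ∀ᶠ n in atTop,
      (∃ y < (initial I n).length, w e₀ y = true ∧ w e1 y = false) →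
        ∃ a ∈ initial I n, gd w e₀ e1 a = true := by
    intro e1 _
    by_cases hsub : V e₀ ⊆ V e1
    · refine Eventually.of_forall fun n => ?_
      rintro ⟨y, -, hy1, hy2⟩
      exact absurd (hsub ((hw e₀ y).1 hy1)) ((hw' e1 y).1 hy2)
    · obtain ⟨y, hy1, hy2⟩ := Set.not_subset.1 hsub
      have hy1' := hy1
      rw [← hpos] at hy1
      obtain ⟨m, hm⟩ := hy1
      filter_upwards [eventually_gt_atTop m] with n hn _
      refine ⟨some (y, true), mem_initial.2 ⟨m, hn, hm⟩, ?_⟩
      simp [gd, (hw e₀ y).2 hy1', (hw' e1 y).2 hy2]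
  have hR := (Filter.eventually_all_finset (Finset.range e₀)).2 hrej
  have hA := (Filter.eventually_all_finset (Finset.range e₀)).2 hacc2
  filter_upwards [hR, hA, eventually_ge_atTop e₀] with n h1 h2 h3
  refine hh_eq (by rw [length_initial]; exact h3) ⟨hacc1 n, fun e1 he1 => ?_⟩ fun e he => ?_
  · exact h2 e1 (Finset.mem_range.2 he1)
  · exact h1 e (Finset.mem_range.2 he)

end Pool.Agent.X219.NO
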