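import Pool.Agent.X219.NO.Choice

open Filter Encodable
open Nat.Partrec (Code)

namespace Pool.Agent.X219.NO

/-- the approximation at stage `s` -/
def app (c : Code) (s e y : ℕ) : Bool := (Nat.Partrec.Code.evaln s c (Nat.pair e y)).isSome

theorem app_primrec (c : Code) : Primrec fun q : ℕ × ℕ × ℕ => app c q.1 q.2.1 q.2.2 := by
  unfold app
  refine Primrec.option_isSome.comp ?_
  exact Nat.Partrec.Code.primrec_evaln.comp
    ((Primrec.fst.pair (Primrec.const c)).pair
      (Primrec₂.natPair.comp (Primrec.fst.comp Primrec.snd) (Primrec.snd.comp Primrec.snd)))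

theorem app_of_primrec {α : Type} [Primcodable α] (c : Code) {f g h : α → ℕ} (hf : Primrec f)
    (hg : Primrec g) (hh : Primrec h) : Primrec fun a => app c (f a) (g a) (h a) :=
  (app_primrec c).comp (hf.pair (hg.pair hh))

abbrev T : Type := (ℕ × List Item) × ℕ

theorem ok_primrec (c : Code) :
    Primrec fun p : Item × T => ok (app c p.2.1.1) p.2.2 p.1 := by
  have h : Primrec fun p : Item × T => (Option.casesOn p.1 true
      (fun q : ℕ × Bool => app c p.2.1.1 p.2.2 q.1 == q.2) : Bool) := by
    refine Primrec.option_casesOn Primrec.fst (Primrec.const true) ?_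
    refine Primrec.beq.comp ?_ (Primrec.snd.comp Primrec.snd)
    exact app_of_primrec c
      (Primrec.fst.comp (Primrec.fst.comp (Primrec.snd.comp Primrec.fst)))
      (Primrec.snd.comp (Primrec.snd.comp Primrec.fst)) (Primrec.fst.comp Primrec.snd)
  refine h.of_eq ?_
  rintro ⟨a, r⟩
  cases a <;> rfl

theorem gd_primrec (c : Code) :
    Primrec fun p : Item × (ℕ × T) => gd (app c p.2.2.1.1) p.2.2.2 p.2.1 p.1 := by
  have h : Primrec fun p : Item × (ℕ × T) => (Option.casesOn p.1 false
      (fun q : ℕ × Bool => q.2 && (app c p.2.2.1.1 p.2.2.2 q.1 && !app c p.2.2.1.1 p.2.1 q.1)) :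
        Bool) := by
    refine Primrec.option_casesOn Primrec.fst (Primrec.const false) ?_
    refine Primrec.and.comp (Primrec.snd.comp Primrec.snd) (Primrec.and.comp ?_
      (Primrec.not.comp ?_))
    · exact app_of_primrec c
        (Primrec.fst.comp (Primrec.fst.comp (Primrec.snd.comp (Primrec.snd.comp Primrec.fst))))
        (Primrec.snd.comp (Primrec.snd.comp (Primrec.snd.comp Primrec.fst)))
        (Primrec.fst.comp Primrec.snd)
    · exact app_of_primrec c
        (Primrec.fst.comp (Primrec.fst.comp (Primrec.snd.comp (Primrec.snd.comp Primrec.fst))))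
        (Primrec.fst.comp (Primrec.snd.comp Primrec.fst))
        (Primrec.fst.comp Primrec.snd)
  refine h.of_eq ?_
  rintro ⟨a, r⟩
  cases a <;> rfl

theorem pred_of_bool {α : Type} [Primcodable α] {f : α → Bool} (hf : Primrec f) :
    PrimrecPred fun a => f a = true :=
  ⟨inferInstance, hf.of_eq fun a => by cases h : f a <;> simp [h]⟩

theorem pred_of_bool' {α : Type} [Primcodable α] {f : α → Bool} (hf : Primrec f) :
    PrimrecPred fun a => f a = false :=
  ⟨inferInstance, (Primrec.not.comp hf).of_eq fun a => by cases h : f a <;> simp [h]⟩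

theorem ex_lt {β : Type} [Primcodable β] {R : ℕ → β → Prop} (hf : PrimrecRel R) :
    PrimrecRel fun (n : ℕ) (b : β) => ∃ x < n, R x b :=
  (hf.exists_mem_list.comp (Primrec.list_range.comp Primrec.fst) Primrec.snd).of_eq (by simp)

theorem all_lt {β : Type} [Primcodable β] {R : ℕ → β → Prop} (hf : PrimrecRel R) :
    PrimrecRel fun (n : ℕ) (b : β) => ∀ x < n, R x b :=
  (hf.forall_mem_list.comp (Primrec.list_range.comp Primrec.fst) Primrec.snd).of_eq (by simp)

theorem cond_primrec (c : Code) : PrimrecPred fun r : T => Cond (app c r.1.1) r.1.2 r.2 := by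
  unfold Cond
  refine PrimrecPred.and ?_ ?_
  · have hR : PrimrecRel fun (a : Item) (r : T) => ok (app c r.1.1) r.2 a = true :=
      pred_of_bool (ok_primrec c)
    have h0 := hR.forall_mem_list
    exact h0.comp (f := fun r : T => r.1.2) (g := fun r : T => r)
      (Primrec.snd.comp Primrec.fst) Primrec.id
  · have hP : PrimrecRel fun (y : ℕ) (q : ℕ × T) =>
        app c q.2.1.1 q.2.2 y = true ∧ app c q.2.1.1 q.1 y = false := by
      refine PrimrecPred.and (pred_of_bool ?_) (pred_of_bool' ?_)
      · exact app_of_primrec c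
          (Primrec.fst.comp (Primrec.fst.comp (Primrec.snd.comp Primrec.snd)))
          (Primrec.snd.comp (Primrec.snd.comp Primrec.snd)) Primrec.fst
      · exact app_of_primrec c
          (Primrec.fst.comp (Primrec.fst.comp (Primrec.snd.comp Primrec.snd)))
          (Primrec.fst.comp Primrec.snd) Primrec.fst
    have hG : PrimrecRel fun (a : Item) (q : ℕ × T) =>
        gd (app c q.2.1.1) q.2.2 q.1 a = true := pred_of_bool (gd_primrec c)
    have h1 : PrimrecPred fun q : ℕ × T => ∃ y < q.2.1.2.length,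
        app c q.2.1.1 q.2.2 y = true ∧ app c q.2.1.1 q.1 y = false := by
      have h0 := ex_lt hP
      exact h0.comp (f := fun q : ℕ × T => q.2.1.2.length) (g := fun q : ℕ × T => q)
        (Primrec.list_length.comp (Primrec.snd.comp (Primrec.fst.comp Primrec.snd))) Primrec.id
    have h2 : PrimrecPred fun q : ℕ × T => ∃ a ∈ q.2.1.2,
        gd (app c q.2.1.1) q.2.2 q.1 a = true := by
      have h0 := hG.exists_mem_list
      exact h0.comp (f := fun q : ℕ × T => q.2.1.2) (g := fun q : ℕ × T => q)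
        (Primrec.snd.comp (Primrec.fst.comp Primrec.snd)) Primrec.id
    have h3 : PrimrecRel fun (e1 : ℕ) (r : T) =>
        (∃ y < r.1.2.length, app c r.1.1 r.2 y = true ∧ app c r.1.1 e1 y = false) →
          ∃ a ∈ r.1.2, gd (app c r.1.1) r.2 e1 a = true := by
      refine PrimrecPred.of_eq (h1.not.or h2) ?_
      intro q
      exact imp_iff_not_or.symm
    have h4 := all_lt h3
    exact h4.comp (f := fun r : T => r.2) (g := fun r : T => r) Primrec.snd Primrec.id

theorem hh_primrec (c : Code) :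
    Primrec fun q : ℕ × List Item => hh (app c q.1) q.2 := by
  classical
  unfold hh
  refine Primrec.list_findIdx (Primrec.list_range.comp
    (Primrec.succ.comp (Primrec.list_length.comp Primrec.snd))) ?_
  have h := (cond_primrec c).decide
  exact h.of_eq fun r => rfl

theorem exists_univ {ψ : ℕ → ℕ →. ℕ} (h : Partrec₂ ψ) :
    ∃ c : Code, ∀ e y, Nat.Partrec.Code.eval c (Nat.pair e y) = ψ e y := by
  have h1 : Partrec fun n : ℕ => ψ n.unpair.1 n.unpair.2 :=
    Partrec.comp (f := fun q : ℕ × ℕ => ψ q.1 q.2) h Computable.unpair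
  obtain ⟨c, hc⟩ := Nat.Partrec.Code.exists_code.1 (Partrec.nat_iff.1 h1)
  refine ⟨c, fun e y => ?_⟩
  rw [hc]
  simp

theorem app_limit {ψ : ℕ → ℕ →. ℕ} {c : Code}
    (hc : ∀ e y, Nat.Partrec.Code.eval c (Nat.pair e y) = ψ e y) (e y : ℕ) [Decidable (y ∈ W ψ e)] :
    ∀ᶠ s in atTop, app c s e y = decide (y ∈ W ψ e) := by
  by_cases h : y ∈ W ψ e
  · have hd : (Nat.Partrec.Code.eval c (Nat.pair e y)).Dom := by rw [hc]; exact h
    obtain ⟨z, hz⟩ := Part.dom_iff_mem.1 hd
    obtain ⟨k, hk⟩ := Nat.Partrec.Code.evaln_complete.1 hz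
    filter_upwards [eventually_ge_atTop k] with s hs
    have := Nat.Partrec.Code.evaln_mono hs hk
    rw [decide_eq_true h]
    unfold app
    rw [Option.mem_def.1 this]
    rfl
  · refine Eventually.of_forall fun s => ?_
    rw [decide_eq_false h]
    unfold app
    rw [Option.isSome_eq_false_iff, Option.isNone_iff_eq_none]
    by_contra hne
    obtain ⟨z, hz⟩ := Option.ne_none_iff_exists'.1 hne
    have h1 := Nat.Partrec.Code.evaln_sound (Option.mem_def.2 hz)
    rw [hc] at h1
    exact h (Part.dom_iff_mem.2 ⟨z, h1⟩)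

/-- The main theorem. -/
theorem main {ψ : ℕ → ℕ →. ℕ} (hψ : Acceptable ψ) :
    ∃ M : List Item → ℕ, Computable M ∧ ∀ L ∈ RE ψ, ∃ S : Set ℕ, S ⊆ Lᶜ ∧ S.Finite ∧
      S.ncard ≤ 1 ∧ ∀ I : ℕ → Item, PosInfo I = L → S ⊆ NegInfo I → NegInfo I ⊆ Lᶜ →
        ∀ᶠ n in atTop, (symmDiff (W ψ (M (initial I n))) L).Finite := by
  classical
  obtain ⟨c, hc⟩ := exists_univ hψ.univ
  let g : ℕ → ℕ →. ℕ := fun p x =>
    ψ (hh (app c x) ((decode (α := List Item) p).getD [])) x
  have hg : Partrec₂ g := by
    have h1 : Computable fun q : ℕ × ℕ => hh (app c q.2) ((decode (α := List Item) q.1).getD []) :=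
      ((hh_primrec c).comp (Primrec.snd.pair
        (Primrec.option_getD.comp (Primrec.decode.comp Primrec.fst) (Primrec.const [])))).to_comp
    exact Partrec.comp (f := fun q : ℕ × ℕ => ψ q.1 q.2) hψ.univ (h1.pair Computable.snd)
  obtain ⟨s, hs, hsg⟩ := hψ.smn g hg
  refine ⟨fun σ => s (encode σ), hs.comp Computable.encode, ?_⟩
  rintro L ⟨e', he'⟩
  have hex : ∃ e, W ψ e = L := ⟨e', he'⟩
  set e₀ := Nat.find hex with he₀
  have hL : W ψ e₀ = L := Nat.find_spec hex
  let w : ℕ → ℕ → Bool := fun e y => decide (y ∈ W ψ e)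
  obtain ⟨S, hS1, hS2, hS3, hS4⟩ := hh_limit w (W ψ) (fun e y => by simp [w]) e₀
    (fun e he h => Nat.find_min hex he (h.trans hL))
  rw [hL] at hS1 hS4
  refine ⟨S, hS1, hS2, hS3, fun I h1 h2 h3 => ?_⟩
  filter_upwards [hS4 I h1 h2 h3] with n hn
  -- the guess is a finite variant
  have hlim : ∀ᶠ x in atTop, hh (app c x) (initial I n) = e₀ := by
    have h4 : ∀ᶠ x in atTop, ∀ e ∈ Finset.range ((initial I n).length + 1),
        ∀ y ∈ use (initial I n), app c x e y = w e y := by
      refine (Filter.eventually_all_finset _).2 fun e _ => ?_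
      refine (Filter.eventually_all_finset _).2 fun y _ => ?_
      exact app_limit hc e y
    filter_upwards [h4] with x hx
    rw [hh_congr hx, hn]
  obtain ⟨N, hN⟩ := eventually_atTop.1 hlim
  refine (Set.finite_lt_nat N).subset ?_
  intro x hx
  by_contra hxN
  have hxN' : N ≤ x := not_lt.1 hxN
  have hmem : x ∈ W ψ (s (encode (initial I n))) ↔ x ∈ L := by
    change (ψ (s (encode (initial I n))) x).Dom ↔ x ∈ L
    rw [hsg]
    change (ψ (hh (app c x) ((decode (α := List Item) (encode (initial I n))).getD [])) x).Dom ↔ _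
    rw [encodek, Option.getD_some, hN x hxN']
    change x ∈ W ψ e₀ ↔ _
    rw [hL]
  rcases hx with ⟨h5, h6⟩ | ⟨h5, h6⟩
  · exact h6 (hmem.1 h5)
  · exact h6 (hmem.2 h5)

end Pool.Agent.X219.NO
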