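import Mathlib

/-!
Behaviourally correct learning of r.e. languages from positive and some negative information.
-/

open Filter Encodable

namespace Pool.Agent.X219.NO

/-- `ψ` is an acceptable numbering of the partial computable functions: its universal function is
partial computable, and every partial computable function `g` of two arguments is of the form
`g p x = ψ (s p) x` for some total computable `s`. -/
structure Acceptable (ψ : ℕ → ℕ →. ℕ) : Prop where
  univ : Partrec₂ ψ
  smn : ∀ g : ℕ → ℕ →. ℕ, Partrec₂ g → ∃ s : ℕ → ℕ, Computable s ∧ ∀ p x, ψ (s p) x = g p x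

/-- The `e`-th r.e. set. -/
def W (ψ : ℕ → ℕ →. ℕ) (e : ℕ) : Set ℕ := {x | (ψ e x).Dom}

/-- The class of all r.e. sets. -/
def RE (ψ : ℕ → ℕ →. ℕ) : Set (Set ℕ) := {L | ∃ e, W ψ e = L}

/-- The items of an information sequence: `some (x, true)` is the positive datum `(x, 1)`,
`some (x, false)` is the negative datum `(x, 0)`, and `none` is the pause symbol. -/
abbrev Item : Type := Option (ℕ × Bool)

/-- Information sequences: no `x` occurs both as a positive and as a negative datum. -/
def IsInfo (I : ℕ → Item) : Prop :=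
  ∀ x, ¬ ((∃ n, I n = some (x, true)) ∧ ∃ n, I n = some (x, false))

/-- The positive data. -/
def PosInfo (I : ℕ → Item) : Set ℕ := {x | ∃ n, I n = some (x, true)}

/-- The negative data. -/
def NegInfo (I : ℕ → Item) : Set ℕ := {x | ∃ n, I n = some (x, false)}

/-- The initial segment of length `n`. -/
def initial (I : ℕ → Item) (n : ℕ) : List Item := (List.range n).map I

/-- `S` has at most `b` elements; for `b = ⊤` (the symbol `*`): `S` is finite. -/
def AtMost (b : WithTop ℕ) (S : Set ℕ) : Prop := S.Finite ∧ ((S.ncard : ℕ) : WithTop ℕ) ≤ b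

/-- `M` identifies `L` in the sense of `NegO^b TxtBc^a`. -/
def Identifies (ψ : ℕ → ℕ →. ℕ) (b a : WithTop ℕ) (M : List Item → ℕ) (L : Set ℕ) : Prop :=
  ∃ S : Set ℕ, S ⊆ Lᶜ ∧ AtMost b S ∧
    ∀ I : ℕ → Item, IsInfo I → PosInfo I = L → S ⊆ NegInfo I → NegInfo I ⊆ Lᶜ →
      ∃ n₀, ∀ n, n₀ ≤ n → AtMost a (symmDiff (W ψ (M (initial I n))) L)

/-- The criterion `NegO^b TxtBc^a`, a set of classes of languages. -/
def NegOTxtBc (ψ : ℕ → ℕ →. ℕ) (b a : WithTop ℕ) : Set (Set (Set ℕ)) :=
  {C | ∃ M : List Item → ℕ, Computable M ∧ ∀ L ∈ C, Identifies ψ b a M L}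

end Pool.Agent.X219.NO
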